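import Mathlib
import Pool.Agent.Helper18.EW.Goals

/-!
# Project EW, packet E12: the final play
-/

set_option autoImplicit false

namespace Pool.Agent.Helper89.EW

open Finset
open Pool.Agent.Helper43.Hw (T na va lz Play aa ac sc oo sk U Dd Sd Pn nx bb np)
open Pool.Agent.Helper43.Gm (Pri st mv nn)
open Pool.Agent.Helper18.EW

theorem st_congr {κ κ' : ℕ → ℕ} {z : ℕ} (h : ∀ y < z, κ y = κ' y) (c : ℕ) :
    st κ c z = st κ' c z := by
  unfold st
  congr 1
  refine filter_congr fun y hy => ?_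
  rw [h y (mem_range.1 hy)]

theorem mv_congr {κ κ' x x' ν : ℕ → ℕ} {z : ℕ} (h : ∀ y < z, κ y = κ' y ∧ x y = x' y) (c : ℕ) :
    mv κ x ν c z = mv κ' x' ν c z := by
  unfold mv
  refine filter_congr fun y hy => ?_
  rw [(h y (mem_range.1 hy)).1, (h y (mem_range.1 hy)).2]

theorem va_congr {μ R : ℕ} {κ κ' x x' : ℕ → ℕ} {z : ℕ} (h : ∀ y ≤ z, κ y = κ' y ∧ x y = x' y)
    (c : ℕ) : va μ R κ x c z = va μ R κ' x' c z := by
  unfold va nn
  rw [(h z le_rfl).1, (h z le_rfl).2, st_congr (fun y hy => (h y hy.le).1) c,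
    mv_congr (fun y hy => h y hy.le) c]

theorem va_old {μ R : ℕ} {κ κ' x x' : ℕ → ℕ} {z : ℕ} (h : ∀ y < z, κ y = κ' y ∧ x y = x' y)
    {c : ℕ} (h1 : c < κ z) (h2 : c < κ' z) : va μ R κ x c z = va μ R κ' x' c z := by
  unfold va nn
  rw [if_neg (by omega), if_neg (by omega), if_neg (by omega), if_neg (by omega),
    if_neg (by omega), if_neg (by omega), st_congr (fun y hy => (h y hy).1) c,
    mv_congr (fun y hy => h y hy) c]

/-- **Packet E12.** -/
theorem goalE12 (h5 : GoalE5) : GoalE12 := by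
  intro μ R N τ s L κ2 x2 hμ hR hP hτ hτs hsJ hsR hκ hpa hex hls
  have hPre : Pre μ R N (s - 1) κ2 x2 := by
    refine ⟨fun y hy => hP.mono y (by omega), fun y hy => hP.le y (by omega),
      fun y hy => hP.lt y (by omega), fun y hy => hP.nat y (by omega),
      fun y hy => hP.fin y (by omega), fun y hy => hP.inc y (by omega)⟩
  obtain ⟨κ, x, h1, h2, h3⟩ := h5 μ R N (s - 1) L κ2 x2 hμ hR (by omega) hPre
  have h1' : ∀ y < s, κ y = κ2 y ∧ x y = x2 y := fun y hy => h1 y (by omega)
  have hk1 : κ (s - 1) = κ2 τ := by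
    rw [(h1 (s - 1) le_rfl).1]
    exact (hpa (s - 1) (by omega) (by omega)).1
  have hx1 : x (s - 1) = na μ R (s - 1) := by
    rw [(h1 (s - 1) le_rfl).2]
    exact (hpa (s - 1) (by omega) (by omega)).2
  refine ⟨κ, x, h2, h3, ⟨by omega, by omega, fun z hz => ?_⟩, h1', ?_⟩
  · rw [← hex z (by omega)]
    unfold lz
    exact sum_congr rfl fun c _ => va_congr (fun y hy => h1 y (by omega)) c
  · refine le_trans (le_of_eq ?_) hls
    have hs1 : s - 1 + 1 = s := by omega
    have hks : κ2 s = κ2 τ := (hpa s (by omega) (by omega)).1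
    have hxs : x2 s = na μ R s := (hpa s (by omega) (by omega)).2
    have hmono : κ2 τ ≤ κ s := by
      have := h2.mono (s - 1) (by omega)
      rw [hs1, hk1] at this
      exact this
    unfold bb lz
    rw [hs1, hk1]
    have hN : N = κ2 τ + 1 + (N - 1 - κ2 τ) := by omega
    have e1 : ∑ c ∈ range N, va μ R κ2 x2 c s =
        ∑ c ∈ range (κ2 τ), va μ R κ2 x2 c s + va μ R κ2 x2 (κ2 τ) s +
          (N - 1 - κ2 τ) * na μ R s := by
      conv_lhs => rw [hN]
      rw [sum_range_add, sum_range_succ]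
      congr 1
      have : ∀ i ∈ range (N - 1 - κ2 τ), va μ R κ2 x2 (κ2 τ + 1 + i) s = na μ R s := by
        intro i _
        unfold va
        rw [if_pos (by omega)]
      rw [sum_congr rfl this, sum_const, card_range, smul_eq_mul]
    have e2 : va μ R κ2 x2 (κ2 τ) s = na μ R s := by
      unfold va nn
      rw [if_neg (by omega), if_neg (by omega), if_pos hks, hxs]
    have e3 : nx μ R x (s - 1) = na μ R s := by
      unfold nx
      rw [hx1, hs1]
      split_ifs with h
      · unfold na at h ⊢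
        omega
      · rfl
    have e4 : ∑ c ∈ range (κ2 τ), va μ R κ x c s = ∑ c ∈ range (κ2 τ), va μ R κ2 x2 c s := by
      refine sum_congr rfl fun c hc => ?_
      have := mem_range.1 hc
      exact va_old h1' (by omega) (by omega)
    rw [e1, e2, e3, e4]
    omega

end Pool.Agent.Helper89.EW
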